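import Pool.Agent.Helper426_GSC.Sym3

set_option autoImplicit false
open CategoryTheory Pool.Agent.Helper426GSC

namespace Pool.Agent.Results.MP_b750b1_al.Cosyzygies

/-- One direction of the Gorenstein symmetry conjecture, with a hypothesis on a single module. Let A
be a finite-dimensional algebra over a field k of finite injective dimension as a left module.
Suppose that for some d and finitely many finitely generated right modules G a, infinitely many
cosyzygies of the right module A have the form Y1 × Y2, where Y1 has an exact sequence
0 → Y1 → V0 → V1 → 0 with V0 and V1 finite direct sums of copies of the G a, and Y2 is a finite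
direct sum of modules generated by d elements. Then A has finite injective dimension as a right
module. -/
theorem result (k : Type) [Field k] (A : Type) [Ring A] [Algebra k A] (hk : Module.Finite k A)
    (hI : MixedCoType (ModuleCat.of Aᵐᵒᵖ A))
    (h : ∃ n, HasInjectiveDimensionLE (ModuleCat.of A A) n) :
    ∃ n, HasInjectiveDimensionLE (ModuleCat.of Aᵐᵒᵖ A) n :=
  gsc_mixed k A hI h

end Pool.Agent.Results.MP_b750b1_al.Cosyzygies
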