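import Pool.Agent.Helper426_GSC.Sym2

set_option autoImplicit false
open CategoryTheory Pool.Agent.Helper426GSC

namespace Pool.Agent.Results.MP_b750b1_al.OneSidedClasses

/-- The Gorenstein symmetry conjecture for one-sided classes of algebras. Let A be a
finite-dimensional algebra over a field k such that A or its opposite algebra satisfies MixedAlg:
there are n, d and finitely many finitely generated left modules G a such that every finitely
generated left module M has an n-th syzygy of the form Y1 × Y2, where Y1 has an exact sequence
0 → V1 → V0 → Y1 → 0 with V1 and V0 finite direct sums of copies of the G a, and Y2 is a finite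
direct sum of modules generated by d elements. Then A has finite injective dimension as a left
module if and only if it has finite injective dimension as a right module. -/
theorem result (k : Type) [Field k] (A : Type) [Ring A] [Algebra k A] (hk : Module.Finite k A)
    (hA : MixedAlg A ∨ MixedAlg Aᵐᵒᵖ) :
    (∃ n, HasInjectiveDimensionLE (ModuleCat.of A A) n) ↔
      (∃ n, HasInjectiveDimensionLE (ModuleCat.of Aᵐᵒᵖ A) n) :=
  gsc_iff k A hA

end Pool.Agent.Results.MP_b750b1_al.OneSidedClasses
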